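import Mathlib
import Pool.Agent.Q157.DD.Stm
import Pool.Agent.Q157.DD.Ds
import Pool.Agent.Q157.DD.Ds2
import Pool.Agent.Q157.SC.CSeven

/-!
# Project DD, job DD-d7: the class with seven elements
-/

set_option autoImplicit false

namespace Pool.Agent.Q153.DD

open Equiv Pool.Agent.Q157.SC Pool.Agent.Q157.DD

/-- The points `a`, `b`, `d` are in the class, and `a - b + d = x`. -/
def ok2 (c : V4 → Bool) (x a b d : V4) : Bool := c a && c b && c d && decide (a - b + d = x)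

/-- The points `a`, `b`, `d` are different from `x`. -/
def ok1 (x a b d : V4) : Bool := !decide (a = x) && !decide (b = x) && !decide (d = x)

theorem spn_of (c : V4 → Bool)
    (h1 : ∀ x, c x = true → ∃ a b d, (ok2 c x a b d && ok1 x a b d) = true)
    (h2 : ∀ v, ∃ a b d, ok2 c v a b d = true) : Spn c := by
  intro x₀ W hW h v
  have key : ∀ y, c y = true → y ∈ W := by
    intro y hy
    by_cases hx : y = x₀
    · obtain ⟨a, b, d, h3⟩ := h1 y hy
      simp only [ok1, ok2, Bool.and_eq_true, Bool.not_eq_true', decide_eq_false_iff_not,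
        decide_eq_true_eq] at h3
      obtain ⟨⟨⟨⟨ha, hb⟩, hd⟩, he⟩, ⟨ha', hb'⟩, hd'⟩ := h3
      rw [← he]
      rw [hx] at ha' hb' hd'
      exact hW _ (h a ha ha') _ (h b hb hb') _ (h d hd hd')
    · exact h y hy hx
  obtain ⟨a, b, d, h3⟩ := h2 v
  simp only [ok2, Bool.and_eq_true, decide_eq_true_eq] at h3
  obtain ⟨⟨⟨ha, hb⟩, hd⟩, he⟩ := h3
  rw [← he]
  exact hW _ (key a ha) _ (key b hb) _ (key d hd)

/-- The relation. -/
def rl (x y : V4) : Bool :=
  !c7 x || decide (x = 0) || !c7 y || decide (y = 0) ||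
    ((decide (x.2 = 0) == decide (y.2 = 0)) == c7 (x + y))

theorem rl_all : ∀ x y : V4, rl x y = true := by decide +kernel

theorem c7_rel (x y : V4) (h1 : c7 x = true) (h2 : x ≠ 0) (h3 : c7 y = true) (h4 : y ≠ 0) :
    (decide (x.2 = 0) = decide (y.2 = 0) ↔ c7 (x + y) = true) := by
  have h := rl_all x y
  unfold rl at h
  rw [h1, h3, decide_eq_false h2, decide_eq_false h4] at h
  revert h
  cases decide (x.2 = 0) <;> cases decide (y.2 = 0) <;> cases c7 (x + y) <;> simp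

theorem spn7 : Spn c7 := spn_of c7 (by decide +kernel) (by decide +kernel)

theorem spn7' : Spn (fun x => !c7 x) := spn_of _ (by decide +kernel) (by decide +kernel)

theorem c7_at0 {f : Perm V4} (hf : Aff f) (hc : ∀ x, c7 (f x) = c7 x) : f 0 = 0 := by
  apply c7_zero
  · rw [hc]
    decide
  · exact cnt_inv c7 hf hc 0

theorem ds7 : ds (ast c7) 3 = ⊥ := by
  have h0 : ∀ f ∈ ast c7, f 0 = 0 := fun f hf => c7_at0 hf.1 hf.2
  have hne : ∀ f ∈ ast c7, ∀ x, x ≠ 0 → f x ≠ 0 := by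
    intro f hf x hx h
    apply hx
    apply f.injective
    rw [h, h0 f hf]
  have hadd : ∀ f ∈ ast c7, ∀ x y, f (x + y) = f x + f y := by
    intro f hf x y
    have := v4_aff hf.1 x 0 y
    rwa [h0 f hf, add_zero, add_zero] at this
  have hP : ∀ g ∈ ast c7, ∀ x, (c7 x = true ∧ x ≠ 0) → (c7 (g x) = true ∧ g x ≠ 0) := by
    rintro g hg x ⟨h1, h2⟩
    exact ⟨by rw [hg.2]; exact h1, hne g hg x h2⟩
  have h1 := swp2 (ast c7) (fun x => c7 x = true ∧ x ≠ 0) hP (fun x => decide (x.2 = 0)) (by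
    rintro g hg x y ⟨hx, hx'⟩ ⟨hy, hy'⟩
    have e1 := c7_rel x y hx hx' hy hy'
    have e2 := c7_rel (g x) (g y) (by rw [hg.2]; exact hx) (hne g hg x hx')
      (by rw [hg.2]; exact hy) (hne g hg y hy')
    rw [← hadd g hg, hg.2] at e2
    exact e2.trans e1.symm)
  have hL : ∀ g ∈ ds (ast c7) 1, g ∈ ast c7 := fun g hg => ds_le _ 1 hg
  have hP1 : ∀ g ∈ ds (ast c7) 1, ∀ x : V4, (x.2 = 0 ∧ x ≠ 0) → ((g x).2 = 0 ∧ g x ≠ 0) := by
    rintro g hg x ⟨hx, hx'⟩
    have h2 := h1 g hg x ⟨(c7_or x).2 (Or.inl hx), hx'⟩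
    refine ⟨?_, hne g (hL g hg) x hx'⟩
    have h3 : decide ((g x).2 = 0) = true := by
      have h4 : decide ((g x).2 = 0) = decide (x.2 = 0) := h2
      rw [h4]
      exact decide_eq_true hx
    exact of_decide_eq_true h3
  have hP2 : ∀ g ∈ ds (ast c7) 1, ∀ x : V4, (x.1 = 0 ∧ x ≠ 0) → ((g x).1 = 0 ∧ g x ≠ 0) := by
    rintro g hg x ⟨hx, hx'⟩
    have h2 := h1 g hg x ⟨(c7_or x).2 (Or.inr hx), hx'⟩
    refine ⟨?_, hne g (hL g hg) x hx'⟩
    have h3 : x.2 ≠ 0 := fun h => hx' (Prod.ext hx h)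
    have h4 : decide ((g x).2 = 0) = false := by
      have h5 : decide ((g x).2 = 0) = decide (x.2 = 0) := h2
      rw [h5]
      exact decide_eq_false h3
    have h5 : (g x).2 ≠ 0 := of_decide_eq_false h4
    have h6 : c7 (g x) = true := by
      rw [(hL g hg).2]
      exact (c7_or x).2 (Or.inr hx)
    exact ((c7_or _).1 h6).resolve_left h5
  have c1 : Nat.card {x : V4 // x.2 = 0 ∧ x ≠ 0} ≤ 3 := by
    rw [Nat.card_eq_fintype_card]
    decide +kernel
  have c2 : Nat.card {x : V4 // x.1 = 0 ∧ x ≠ 0} ≤ 3 := by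
    rw [Nat.card_eq_fintype_card]
    decide +kernel
  rw [eq_bot_iff]
  intro g hg
  rw [Subgroup.mem_bot]
  have hgA : g ∈ ast c7 := ds_le _ 3 hg
  have hg2 : g ∈ ds (ds (ast c7) 1) 2 := by
    rw [← ds_add]
    exact hg
  have h2 := aff_ext g (1 : Perm V4) {x | c7 x = true} hgA.1 (fun _ _ _ => rfl) (by
    intro U hU hs v
    have ha : (v.1, (0 : ZMod 2 × ZMod 2)) ∈ U := hs ((c7_or _).2 (Or.inl rfl))
    have hb : ((0 : ZMod 2 × ZMod 2), v.2) ∈ U := hs ((c7_or _).2 (Or.inr rfl))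
    have h0 : (0 : V4) ∈ U := hs (by show c7 0 = true; decide)
    have h3 := hU _ ha _ h0 _ hb
    have h4 : (v.1, (0 : ZMod 2 × ZMod 2)) - 0 + ((0 : ZMod 2 × ZMod 2), v.2) = v := by simp
    rwa [h4] at h3) (by
    intro x hx
    show g x = x
    by_cases hx0 : x = 0
    · rw [hx0, h0 g hgA]
    · rcases (c7_or x).1 hx with h3 | h3
      · exact ds_fix _ (fun x : V4 => x.2 = 0 ∧ x ≠ 0) hP1 2 (perm_small.2.1 c1) g hg2 x ⟨h3, hx0⟩
      · exact ds_fix _ (fun x : V4 => x.1 = 0 ∧ x ≠ 0) hP2 2 (perm_small.2.1 c2) g hg2 x ⟨h3, hx0⟩)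
  exact DFunLike.coe_injective h2

theorem d7 : S_d7 := ⟨ds7, spn7, spn7'⟩

end Pool.Agent.Q153.DD
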